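import Pool.Agent.H91.CP.Colim
import Pool.Graph.R_pool_sql_team_seeded_3997aac3.Q30.FJ.Cox4

/-!
# One level of a presentation by conjugation relations and Coxeter relations

`K R E` is generated by the group `Q` and involutions `i` with the relations `q i q⁻¹ = j` for
`R q i j` and `(q i q⁻¹ j) ^ m = 1` for `E q i j m`. It embeds in the semidirect product with `Q` of a
Coxeter group, whose generators are the conjugates of the letters.
-/

set_option autoImplicit false
set_option linter.style.haveILetI false
set_option linter.unusedSectionVars false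

namespace Pool.Agent.H91.CX

open Monoid
open Pool.Agent.Y110.FJ (ClosedE)
open Pool.Agent.Y462.SS (Closed)

variable {Q : Type} [Group Q] {I : Type} (R : Q → I → I → Prop) (E : Q → I → I → ℕ → Prop)

/-- the relators of one level -/
def kRel : Set (Coprod Q (FreeGroup I)) :=
  {x | (∃ q i j, R q i j ∧ x = Coprod.inl q * Coprod.inr (FreeGroup.of i) * (Coprod.inl q)⁻¹ *
      (Coprod.inr (FreeGroup.of j))⁻¹) ∨
    (∃ q i j m, E q i j m ∧ x = (Coprod.inl q * Coprod.inr (FreeGroup.of i) * (Coprod.inl q)⁻¹ *
      Coprod.inr (FreeGroup.of j)) ^ m) ∨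
    (∃ i, x = Coprod.inr (FreeGroup.of i) ^ 2)}

/-- one level of a presentation -/
def K : Type := Coprod Q (FreeGroup I) ⧸ Subgroup.normalClosure (kRel R E)

namespace K

instance : Group (K R E) := inferInstanceAs (Group (_ ⧸ _))

/-- the elements of `Q` -/
def q : Q →* K R E :=
  (QuotientGroup.mk' (Subgroup.normalClosure (kRel R E))).comp Coprod.inl

/-- the letters -/
def y (i : I) : K R E :=
  QuotientGroup.mk' (Subgroup.normalClosure (kRel R E)) (Coprod.inr (FreeGroup.of i))

variable {R E}

theorem rel1 {x : Coprod Q (FreeGroup I)} (hx : x ∈ kRel R E) :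
    QuotientGroup.mk' (Subgroup.normalClosure (kRel R E)) x = 1 :=
  (QuotientGroup.eq_one_iff _).2 (Subgroup.subset_normalClosure hx)

theorem conj {a : Q} {i j : I} (h : R a i j) :
    q R E a * y R E i * (q R E a)⁻¹ = y R E j := by
  have h1 := rel1 (E := E) (Or.inl ⟨a, i, j, h, rfl⟩)
  rw [map_mul, map_inv, mul_inv_eq_one, map_mul, map_mul, map_inv] at h1
  exact h1

theorem cox {a : Q} {i j : I} {m : ℕ} (h : E a i j m) :
    (q R E a * y R E i * (q R E a)⁻¹ * y R E j) ^ m = 1 := by
  have h1 := rel1 (R := R) (Or.inr (Or.inl ⟨a, i, j, m, h, rfl⟩))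
  rw [map_pow, map_mul, map_mul, map_mul, map_inv] at h1
  exact h1

theorem sq (i : I) : y R E i ^ 2 = 1 := by
  have h1 := rel1 (R := R) (E := E) (Or.inr (Or.inr ⟨i, rfl⟩))
  rw [map_pow] at h1
  exact h1

variable {H : Type} [Group H]

/-- the universal property -/
def lift (f : Q →* H) (g : I → H) (h1 : ∀ a i j, R a i j → f a * g i * (f a)⁻¹ = g j)
    (h2 : ∀ a i j m, E a i j m → (f a * g i * (f a)⁻¹ * g j) ^ m = 1) (h3 : ∀ i, g i ^ 2 = 1) :
    K R E →* H :=
  QuotientGroup.lift _ (Coprod.lift f (FreeGroup.lift g)) (by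
    intro z hz
    have h4 : Subgroup.normalClosure (kRel R E) ≤ (Coprod.lift f (FreeGroup.lift g)).ker := by
      refine Subgroup.normalClosure_le_normal ?_
      rintro _ (⟨a, i, j, h, rfl⟩ | ⟨a, i, j, m, h, rfl⟩ | ⟨i, rfl⟩)
      · change Coprod.lift f (FreeGroup.lift g) _ = 1
        simp only [map_mul, map_inv, Coprod.lift_apply_inl, Coprod.lift_apply_inr,
          FreeGroup.lift_apply_of]
        rw [h1 a i j h, mul_inv_cancel]
      · change Coprod.lift f (FreeGroup.lift g) _ = 1
        simp only [map_pow, map_mul, map_inv, Coprod.lift_apply_inl, Coprod.lift_apply_inr,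
          FreeGroup.lift_apply_of]
        exact h2 a i j m h
      · change Coprod.lift f (FreeGroup.lift g) _ = 1
        rw [map_pow, Coprod.lift_apply_inr, FreeGroup.lift_apply_of, h3]
    exact h4 hz)

section

variable (f : Q →* H) (g : I → H) (h1 : ∀ a i j, R a i j → f a * g i * (f a)⁻¹ = g j)
    (h2 : ∀ a i j m, E a i j m → (f a * g i * (f a)⁻¹ * g j) ^ m = 1) (h3 : ∀ i, g i ^ 2 = 1)

theorem lift_q (a : Q) : lift f g h1 h2 h3 (q R E a) = f a := by
  change Coprod.lift f (FreeGroup.lift g) (Coprod.inl a) = f a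
  rw [Coprod.lift_apply_inl]

theorem lift_y (i : I) : lift f g h1 h2 h3 (y R E i) = g i := by
  change Coprod.lift f (FreeGroup.lift g) (Coprod.inr (FreeGroup.of i)) = g i
  rw [Coprod.lift_apply_inr, FreeGroup.lift_apply_of]

end

theorem hom_ext {f g : K R E →* H} (h1 : ∀ a, f (q R E a) = g (q R E a))
    (h2 : ∀ i, f (y R E i) = g (y R E i)) : f = g := by
  refine QuotientGroup.monoidHom_ext _ ?_
  refine Coprod.hom_ext ?_ ?_
  · exact MonoidHom.ext h1
  · exact FreeGroup.ext_hom _ _ h2

end K

/-! ### the Coxeter group -/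

/-- the conjugates of the letters by the elements of `Q` -/
def X : Type := {x : K R E // ∃ a i, x = K.q R E a * K.y R E i * (K.q R E a)⁻¹}

variable {R E}

theorem X.sq (x : X R E) : x.1 * x.1 = 1 := by
  obtain ⟨x, a, i, rfl⟩ := x
  have h := K.sq (R := R) (E := E) i
  rw [pow_two] at h
  calc K.q R E a * K.y R E i * (K.q R E a)⁻¹ * (K.q R E a * K.y R E i * (K.q R E a)⁻¹)
      = K.q R E a * (K.y R E i * K.y R E i) * (K.q R E a)⁻¹ := by group
    _ = 1 := by rw [h]; group

theorem X.inv (x : X R E) : x.1⁻¹ = x.1 := inv_eq_of_mul_eq_one_left x.sq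

/-- the action of `Q` -/
def X.smul (b : Q) (x : X R E) : X R E :=
  ⟨K.q R E b * x.1 * (K.q R E b)⁻¹, by
    obtain ⟨x, a, i, rfl⟩ := x
    refine ⟨b * a, i, ?_⟩
    rw [map_mul]
    group⟩

theorem X.smul_val (b : Q) (x : X R E) : (X.smul b x).1 = K.q R E b * x.1 * (K.q R E b)⁻¹ := rfl

theorem X.smul_one (x : X R E) : X.smul 1 x = x := by
  apply Subtype.ext
  rw [X.smul_val, map_one]
  group

theorem X.smul_smul (b c : Q) (x : X R E) : X.smul b (X.smul c x) = X.smul (b * c) x := by
  apply Subtype.ext
  rw [X.smul_val, X.smul_val, X.smul_val, map_mul]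
  group

variable (R E)

/-- the Coxeter matrix: the orders of the products of two conjugates -/
noncomputable def Mt : CoxeterMatrix (X R E) where
  M := fun x z => orderOf (x.1 * z.1)
  isSymm := by
    refine Matrix.IsSymm.ext fun x z => ?_
    have h : z.1 * x.1 = (x.1 * z.1)⁻¹ := by rw [mul_inv_rev, X.inv, X.inv]
    rw [h, orderOf_inv]
  diagonal := by
    intro x
    rw [x.sq, orderOf_one]
  off_diagonal := by
    intro x z hxz h
    change orderOf (x.1 * z.1) = 1 at h
    rw [orderOf_eq_one_iff, mul_eq_one_iff_eq_inv, X.inv] at h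
    exact hxz (Subtype.ext h)

theorem Mt_apply (x z : X R E) : Mt R E x z = orderOf (x.1 * z.1) := rfl

/-- the Coxeter group -/
abbrev W : Type := (Mt R E).Group

/-- the simple reflections -/
noncomputable def si (x : X R E) : W R E := (Mt R E).simple x

theorem si_eq (x : X R E) : si R E x = (Mt R E).toCoxeterSystem.simple x :=
  ((Mt R E).toCoxeterSystem_simple ▸ rfl)

theorem si_sq (x : X R E) : si R E x ^ 2 = 1 := by
  rw [si_eq]
  exact (Mt R E).toCoxeterSystem.simple_sq x

theorem si_pow (x z : X R E) : (si R E x * si R E z) ^ orderOf (x.1 * z.1) = 1 := by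
  rw [si_eq, si_eq]
  exact (Mt R E).toCoxeterSystem.simple_mul_simple_pow x z

/-- homomorphisms from the Coxeter group -/
theorem exists_wlift {H : Type} [Group H] (f : X R E → H)
    (hf : ∀ x z, (f x * f z) ^ orderOf (x.1 * z.1) = 1) :
    ∃ F : W R E →* H, ∀ x, F (si R E x) = f x := by
  have hf' : (Mt R E).IsLiftable f := hf
  refine ⟨(Mt R E).toCoxeterSystem.lift ⟨f, hf'⟩, fun x => ?_⟩
  rw [si_eq]
  exact CoxeterSystem.lift_apply_simple _ hf' x

theorem w_ext {H : Type} [Group H] {f g : W R E →* H} (h : ∀ x, f (si R E x) = g (si R E x)) :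
    f = g := by
  refine (Mt R E).toCoxeterSystem.ext_simple fun x => ?_
  rw [← si_eq]
  exact h x

theorem order_smul (a : Q) (x z : X R E) :
    orderOf ((X.smul a x).1 * (X.smul a z).1) = orderOf (x.1 * z.1) := by
  have h : (X.smul a x).1 * (X.smul a z).1 = MulAut.conj (K.q R E a) (x.1 * z.1) := by
    rw [X.smul_val, X.smul_val, MulAut.conj_apply]
    group
  rw [h]
  exact orderOf_injective (MulAut.conj (K.q R E a)).toMonoidHom (MulEquiv.injective _) _

/-- the action of an element of `Q` on the Coxeter group -/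
noncomputable def act0 (a : Q) : W R E →* W R E :=
  (exists_wlift R E (fun x => si R E (X.smul a x)) (by
    intro x z
    have h := si_pow R E (X.smul a x) (X.smul a z)
    rw [order_smul] at h
    exact h)).choose

theorem act0_si (a : Q) (x : X R E) : act0 R E a (si R E x) = si R E (X.smul a x) :=
  (exists_wlift R E (fun x => si R E (X.smul a x)) (by
    intro x z
    have h := si_pow R E (X.smul a x) (X.smul a z)
    rw [order_smul] at h
    exact h)).choose_spec x

theorem act0_mul (a b : Q) (w : W R E) : act0 R E a (act0 R E b w) = act0 R E (a * b) w := by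
  have h : (act0 R E a).comp (act0 R E b) = act0 R E (a * b) := by
    refine w_ext R E fun x => ?_
    rw [MonoidHom.comp_apply, act0_si, act0_si, act0_si, X.smul_smul]
  exact DFunLike.congr_fun h w

theorem act0_one (w : W R E) : act0 R E 1 w = w := by
  have h : act0 R E 1 = MonoidHom.id _ := by
    refine w_ext R E fun x => ?_
    rw [act0_si, X.smul_one]
    rfl
  exact DFunLike.congr_fun h w

/-- the action of `Q` on the Coxeter group -/
noncomputable def act : Q →* MulAut (W R E) where
  toFun a :=
    { toFun := act0 R E a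
      invFun := act0 R E a⁻¹
      left_inv := fun w => by rw [act0_mul, inv_mul_cancel, act0_one]
      right_inv := fun w => by rw [act0_mul, mul_inv_cancel, act0_one]
      map_mul' := fun v w => map_mul _ v w }
  map_one' := by
    ext w
    exact act0_one R E w
  map_mul' a b := by
    ext w
    exact (act0_mul R E a b w).symm

theorem act_si (a : Q) (x : X R E) : act R E a (si R E x) = si R E (X.smul a x) := act0_si R E a x

/-- the semidirect product -/
abbrev SD : Type := W R E ⋊[act R E] Q

theorem conj_inl (a : Q) (w : W R E) :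
    (SemidirectProduct.inr a * SemidirectProduct.inl w * (SemidirectProduct.inr a)⁻¹ : SD R E) =
      SemidirectProduct.inl (act R E a w) := by
  rw [SemidirectProduct.inl_aut, map_inv]

/-- a letter as a conjugate -/
def xy (i : I) : X R E := ⟨K.y R E i, 1, i, by rw [map_one]; group⟩

/-- the homomorphism to the semidirect product -/
noncomputable def Phi : K R E →* SD R E :=
  K.lift (SemidirectProduct.inr) (fun i => SemidirectProduct.inl (si R E (xy R E i))) (by
    intro a i j h
    rw [conj_inl, act_si]
    congr 2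
    exact Subtype.ext (K.conj h)) (by
    intro a i j m h
    rw [conj_inl, act_si, ← map_mul, ← map_pow]
    have h1 : orderOf ((X.smul a (xy R E i)).1 * (xy R E j).1) ∣ m :=
      orderOf_dvd_of_pow_eq_one (K.cox h)
    obtain ⟨k, rfl⟩ := h1
    rw [pow_mul, si_pow, one_pow, map_one]) (by
    intro i
    rw [← map_pow, si_sq, map_one])

/-- the homomorphism from the Coxeter group -/
theorem exists_psi : ∃ F : W R E →* K R E, ∀ x, F (si R E x) = x.1 :=
  exists_wlift R E (fun x => x.1) (fun _ _ => pow_orderOf_eq_one _)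

/-- the homomorphism from the semidirect product -/
theorem exists_Psi : ∃ F : SD R E →* K R E, (∀ a, F (SemidirectProduct.inr a) = K.q R E a) ∧
    ∀ x, F (SemidirectProduct.inl (si R E x)) = x.1 := by
  obtain ⟨F, hF⟩ := exists_psi R E
  refine ⟨SemidirectProduct.lift F (K.q R E) ?_, fun a => ?_, fun x => ?_⟩
  · intro a
    refine w_ext R E fun x => ?_
    change F (act R E a (si R E x)) = K.q R E a * F (si R E x) * (K.q R E a)⁻¹
    rw [act_si, hF, hF]
    rfl
  · rw [SemidirectProduct.lift_inr]
  · rw [SemidirectProduct.lift_inl, hF]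

theorem Phi_injective : Function.Injective (Phi R E) := by
  obtain ⟨F, h1, h2⟩ := exists_Psi R E
  refine Function.LeftInverse.injective (g := F) ?_
  intro x
  have h : F.comp (Phi R E) = MonoidHom.id _ := by
    refine K.hom_ext (fun a => ?_) (fun i => ?_)
    · change F (K.lift _ _ _ _ _ (K.q R E a)) = K.q R E a
      rw [K.lift_q]
      exact h1 a
    · change F (K.lift _ _ _ _ _ (K.y R E i)) = K.y R E i
      rw [K.lift_y]
      exact h2 _
  exact DFunLike.congr_fun h x

/-- the semidirect product is in the class -/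
theorem sd_mem {C : ∀ (G : Type) [Group G], Prop} (hC : ClosedE C)
    (hcox : ∀ (A : Type) (_ : Finite A) (M : CoxeterMatrix A), C M.Group) (hQ : C Q) :
    C (SD R E) := by
  have hinj : Function.Injective (SemidirectProduct.inl : W R E →* SD R E) :=
    SemidirectProduct.inl_injective
  have hrange : ∀ w : W R E, (SemidirectProduct.inl w : SD R E) ∈
      (SemidirectProduct.rightHom : SD R E →* Q).ker := by
    intro w
    rw [MonoidHom.mem_ker]
    exact SemidirectProduct.rightHom_inl _
  let e : W R E ≃* (SemidirectProduct.rightHom : SD R E →* Q).ker :=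
    MulEquiv.ofBijective ((SemidirectProduct.inl : W R E →* SD R E).codRestrict _ hrange) (by
      constructor
      · intro a b hab
        exact hinj (congrArg Subtype.val hab)
      · rintro ⟨g, hg⟩
        refine ⟨g.left, Subtype.ext ?_⟩
        exact SemidirectProduct.ext rfl (MonoidHom.mem_ker.1 hg).symm)
  have he : ∀ w, ((e w : (SemidirectProduct.rightHom : SD R E →* Q).ker) : SD R E) =
    SemidirectProduct.inl w := fun w => rfl
  refine Q30.FJ.cox_kernel hC (SD R E) (SemidirectProduct.rightHom : SD R E →* Q).ker ?_ (X R E)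
    (Mt R E) ((Mt R E).toCoxeterSystem.map e) (fun A hA M' _ => hcox A hA M') ?_
  · exact hC.base.of_injective _ Q (QuotientGroup.kerLift _) (QuotientGroup.kerLift_injective _) hQ
  · intro g F _
    refine ⟨e g.left⁻¹, fun x _ => ⟨X.smul g.right x, ?_⟩⟩
    have h1 : (SemidirectProduct.inl g.left⁻¹ : SD R E) * g = SemidirectProduct.inr g.right := by
      refine SemidirectProduct.ext ?_ ?_
      · simp
      · simp
    rw [CoxeterSystem.map_simple, CoxeterSystem.map_simple, he, he, he, h1, ← si_eq, ← si_eq,
      conj_inl, act_si]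

/-- **One level.** -/
theorem k_mem {C : ∀ (G : Type) [Group G], Prop} (hC : ClosedE C)
    (hcox : ∀ (A : Type) (_ : Finite A) (M : CoxeterMatrix A), C M.Group) (hQ : C Q) :
    C (K R E) :=
  hC.base.of_injective _ _ (Phi R E) (Phi_injective R E) (sd_mem R E hC hcox hQ)

/-- Coxeter groups of any rank -/
theorem cox_any {C : ∀ (G : Type) [Group G], Prop} (hC : ClosedE C)
    (hcox : ∀ (A : Type) (_ : Finite A) (M : CoxeterMatrix A), C M.Group) {B : Type}
    (M : CoxeterMatrix B) : C M.Group := by
  have htop : ∀ w : M.Group, w ∈ (⊤ : Subgroup M.Group) := fun w => Subgroup.mem_top w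
  refine Q30.FJ.cox_kernel hC M.Group ⊤ ?_ B M
    (M.toCoxeterSystem.map Subgroup.topEquiv.symm) (fun A hA M' _ => hcox A hA M') ?_
  · have h1 : C (FreeGroup Empty) := by
      haveI : Finite (FreeGroup Empty) := inferInstance
      have h2 := hC.base.of_injective (FreeGroup Empty) (Multiplicative ℤ) 1
        (fun a b _ => Subsingleton.elim a b) hC.base.int
      exact h2
    haveI : Subsingleton (M.Group ⧸ (⊤ : Subgroup M.Group)) := QuotientGroup.subsingleton_quotient_top
    exact hC.base.of_injective _ (FreeGroup Empty) 1 (fun a b _ => Subsingleton.elim a b) h1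
  · intro g F _
    refine ⟨⟨g⁻¹, htop _⟩, fun x _ => ⟨x, ?_⟩⟩
    simp

end Pool.Agent.H91.CX
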